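import Mathlib
import Pool.Agent.W188.QS.All
import Pool.Agent.W188.QS.Asm3

/-!
# The moments of zeta and `k - 1` lines

Fix a direction `u ≠ 0` and `N ≥ 1`, and consider the heights `t > 100` at which `ζ(1/2 + it)` lies on one of the
`N` lines `u e^{πij/N} ℝ` through `0` (for `N = 1` this is the single line `u ℝ`; for `u = 1`, `N = 2` these are
the points at which `ζ(1/2 + it)` is real or purely imaginary).

* For every integer `k ≥ 1` and every `N ≥ max (1, k - 1)` the asymptotic formula `M_k(T) ~ a (log T)^(k^2)` for the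
  `2k`-th moment is EQUIVALENT to the corresponding asymptotic formula for the discrete moment over the `N` lines
  (with the constant `N a / (2π)` and one more logarithm).  So the sixth moment (`k = 3`) is determined by two
  perpendicular lines, and the `2k`-th moment by `k - 1` lines.
* Unconditionally the discrete `2k`-th moment over the `N` lines in `(T, 2T]` lies between
  `(N/(2π) ± ε) log T ∫ |ζ|^{2k}` over slightly smaller and slightly larger intervals.
* Every single line carries at most `k - 1` times its expected share of the `2k`-th moment.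

Proof.  Residue theorem for `ζ(s)^k ζ(1-s)^k G(s) / (1 - c χ(1-s)^{-N})` on `-3 ≤ Re s ≤ 4`; for `N = k - 1` the
critical term `∫ ζ(s)^{2k} χ(1-s) G(s) ds` is bounded by `O(T (log T)^{2k-1})`, which is smaller than the main term
because `2k - 1 < k^2 - 1/2` for `k ≥ 2`; finally a Tauberian argument for measures with nearly equal Gaussian
averages.

Parts of the proof were formalized by helpers 22, 32, 131, 253, 290, 327, 334, 338, 369, 372, 563, 571, 723, 864,
885, 928, 975 (see the imported files); plan and assembly by helper188.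
-/

set_option autoImplicit false

open Filter Topology Set MeasureTheory

namespace Pool.Agent.Results.MP_112ba8_nt.FewLinesMoments

/-- The value `ζ(1/2 + it)`. -/
noncomputable def z (t : ℝ) : ℂ := riemannZeta (1 / 2 + t * Complex.I)

/-- The heights `t > 100` at which `ζ(1/2 + it)` is a nonzero point of one of the `N` lines `u e^{πij/N} ℝ`. -/
def Pts (u : ℂ) (N : ℕ) : Set ℝ :=
  {t | 100 < t ∧ ∃ (j : ℕ) (r : ℝ), r ≠ 0 ∧ z t = r * (u * Complex.exp (Real.pi * Complex.I * j / N))}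

/-- The moment `(1/T) ∫_0^T |ζ(1/2 + it)|^{2k} dt`. -/
noncomputable def M (k : ℕ) (T : ℝ) : ℝ := 1 / T * ∫ t in (0 : ℝ)..T, ‖z t‖ ^ (2 * k)

/-- The sum of `|ζ(1/2 + it)|^{2k}` over the heights `S < t ≤ T` in `Pts u N`. -/
noncomputable def D (u : ℂ) (k N : ℕ) (S T : ℝ) : ℝ := ∑ᶠ t ∈ Pts u N ∩ Ioc S T, ‖z t‖ ^ (2 * k)

open Pool.Agent.W188.QS

lemma z_eq (t : ℝ) : z t = riemannZeta (cp t) := rfl

lemma Zk_z (k : ℕ) (t : ℝ) : ‖z t‖ ^ (2 * k) = Zk k t := rfl

/-- the number `c` that belongs to the direction `u` -/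
noncomputable def cc (u : ℂ) (N : ℕ) : ℂ := ((u / (‖u‖ : ℂ))⁻¹) ^ (2 * N)

lemma cc_norm {u : ℂ} (hu : u ≠ 0) (N : ℕ) : ‖cc u N‖ = 1 := by
  have h : ‖u‖ ≠ 0 := norm_ne_zero_iff.2 hu
  unfold cc
  rw [norm_pow, norm_inv, norm_div, Complex.norm_real, norm_norm, div_self h]
  simp

/-- points on the critical line with `w = 1`, in terms of `ζ` -/
lemma ww_iff {c : ℂ} {N : ℕ} {t : ℝ} (ht : 1 ≤ t) (hz : z t ≠ 0) :
    ww c N (cp t) = 1 ↔ c * z t ^ (2 * N) = ((‖z t‖ ^ (2 * N) : ℝ) : ℂ) := by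
  have hX : ‖XX (cp t)‖ = 1 := a_line.2.1 t
  have hX0 : XX (cp t) ≠ 0 := by
    intro h
    rw [h] at hX
    simp at hX
  have hfe : (starRingEnd ℂ) (z t) = XX (cp t) * z t := a_line.2.2.1 t ht
  have h1 : ((‖z t‖ ^ (2 * N) : ℝ) : ℂ) = XX (cp t) ^ N * z t ^ (2 * N) := by
    have h2 : ((‖z t‖ ^ 2 : ℝ) : ℂ) = XX (cp t) * z t ^ 2 := by
      have h3 := Complex.mul_conj (z t)
      rw [hfe, Complex.normSq_eq_norm_sq] at h3
      rw [← h3]; ring
    rw [pow_mul, Complex.ofReal_pow, h2, mul_pow, pow_mul]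
  rw [h1]
  have hz2 : z t ^ (2 * N) ≠ 0 := pow_ne_zero _ hz
  unfold ww
  rw [inv_pow]
  constructor
  · intro h
    have h2 : c = XX (cp t) ^ N := by
      have := congrArg (fun x => x * XX (cp t) ^ N) h
      simp only [one_mul] at this
      rw [mul_assoc, inv_mul_cancel₀ (pow_ne_zero _ hX0), mul_one] at this
      exact this
    rw [h2]
  · intro h
    have h2 : c = XX (cp t) ^ N := mul_right_cancel₀ hz2 h
    rw [h2]
    exact mul_inv_cancel₀ (pow_ne_zero _ hX0)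

/-- the algebraic description of the `N` lines -/
lemma line_iff {u x : ℂ} {N : ℕ} (hu : u ≠ 0) (hN : 1 ≤ N) (hx : x ≠ 0) :
    cc u N * x ^ (2 * N) = ((‖x‖ ^ (2 * N) : ℝ) : ℂ) ↔
      ∃ (j : ℕ) (r : ℝ), r ≠ 0 ∧ x = r * (u * Complex.exp (Real.pi * Complex.I * j / N)) := by
  have hu0 : ‖u‖ ≠ 0 := norm_ne_zero_iff.2 hu
  have hx0 : ‖x‖ ≠ 0 := norm_ne_zero_iff.2 hx
  have hu1 : (‖u‖ : ℂ) ≠ 0 := by exact_mod_cast hu0
  have hx1 : (‖x‖ : ℂ) ≠ 0 := by exact_mod_cast hx0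
  have hN0 : (N : ℂ) ≠ 0 := by
    have : N ≠ 0 := by omega
    exact_mod_cast this
  set v : ℂ := (u / (‖u‖ : ℂ))⁻¹ * (x / (‖x‖ : ℂ)) with hv
  have hv1 : cc u N * x ^ (2 * N) = v ^ (2 * N) * ((‖x‖ ^ (2 * N) : ℝ) : ℂ) := by
    rw [hv, cc, mul_pow, div_pow]
    push_cast
    field_simp
  have hX0 : ((‖x‖ ^ (2 * N) : ℝ) : ℂ) ≠ 0 := by
    push_cast
    exact pow_ne_zero _ hx1
  have hxv : x = ((‖x‖ / ‖u‖ : ℝ) : ℂ) * (u * v) := by
    rw [hv]
    push_cast
    field_simp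
  constructor
  · intro h
    rw [hv1] at h
    have h1 : v ^ (2 * N) = 1 := by
      have h2 : v ^ (2 * N) * ((‖x‖ ^ (2 * N) : ℝ) : ℂ) = 1 * ((‖x‖ ^ (2 * N) : ℝ) : ℂ) := by
        rw [h, one_mul]
      exact mul_right_cancel₀ hX0 h2
    have h2N : 2 * N ≠ 0 := by omega
    have : NeZero (2 * N) := ⟨h2N⟩
    obtain ⟨j, hj, hj2⟩ := (Complex.isPrimitiveRoot_exp (2 * N) h2N).eq_pow_of_pow_eq_one h1
    refine ⟨j, ‖x‖ / ‖u‖, div_ne_zero hx0 hu0, ?_⟩
    have e1 : Complex.exp (Real.pi * Complex.I * j / N) = v := by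
      rw [← hj2, ← Complex.exp_nat_mul]
      congr 1
      push_cast
      field_simp
    rw [e1]
    exact hxv
  · rintro ⟨j, r, hr, hxr⟩
    have hE : Complex.exp (Real.pi * Complex.I * j / N) ^ (2 * N) = 1 := by
      rw [← Complex.exp_nat_mul]
      have : ((2 * N : ℕ) : ℂ) * (Real.pi * Complex.I * j / N) = (j : ℤ) * (2 * Real.pi * Complex.I) := by
        push_cast
        field_simp
      rw [this, Complex.exp_int_mul_two_pi_mul_I]
    have hEn : ‖Complex.exp (Real.pi * Complex.I * j / N)‖ = 1 := by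
      have e : (Real.pi * Complex.I * j / N : ℂ) = ((Real.pi * j / N : ℝ) : ℂ) * Complex.I := by
        push_cast; ring
      rw [e, Complex.norm_exp_ofReal_mul_I]
    have hxn : ‖x‖ = |r| * ‖u‖ := by
      rw [hxr, norm_mul, norm_mul, hEn, Complex.norm_real, Real.norm_eq_abs, mul_one]
    have h4 : ((‖x‖ ^ (2 * N) : ℝ) : ℂ) = (r : ℂ) ^ (2 * N) * (‖u‖ : ℂ) ^ (2 * N) := by
      rw [hxn, mul_pow, pow_mul |r|, sq_abs, ← pow_mul]
      push_cast
      ring
    rw [h4, cc, hxr]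
    set E := Complex.exp (Real.pi * Complex.I * j / N)
    have : ((u / (‖u‖ : ℂ))⁻¹) ^ (2 * N) * ((r : ℂ) * (u * E)) ^ (2 * N) =
        (r : ℂ) ^ (2 * N) * (‖u‖ : ℂ) ^ (2 * N) * E ^ (2 * N) := by
      rw [inv_div, ← mul_pow, ← mul_pow, ← mul_pow]
      congr 1
      field_simp
    rw [this, hE, mul_one]

lemma Pts_iff {u : ℂ} {N : ℕ} (hu : u ≠ 0) (hN : 1 ≤ N) {t : ℝ} (hz : z t ≠ 0) :
    t ∈ Pts u N ↔ t ∈ PP (cc u N) N := by
  constructor
  · rintro ⟨h1, h2⟩
    exact ⟨h1, (ww_iff (by linarith) hz).2 ((line_iff hu hN hz).2 h2)⟩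
  · rintro ⟨h1, h2⟩
    exact ⟨h1, (line_iff hu hN hz).1 ((ww_iff (by linarith) hz).1 h2)⟩

lemma Pts_ne {u : ℂ} {N : ℕ} (hu : u ≠ 0) {t : ℝ} (h : t ∈ Pts u N) : z t ≠ 0 := by
  obtain ⟨-, j, r, hr, h2⟩ := h
  rw [h2]
  refine mul_ne_zero (by exact_mod_cast hr) (mul_ne_zero hu (Complex.exp_ne_zero _))

/-- sums over `Pts` and over `PP` -/
lemma sum_eq {u : ℂ} {N : ℕ} (hu : u ≠ 0) (hN : 1 ≤ N) (U : Set ℝ) (f : ℝ → ℝ)
    (hf : ∀ t, z t = 0 → f t = 0) :
    ∑ᶠ t ∈ Pts u N ∩ U, f t = ∑ᶠ t ∈ PP (cc u N) N ∩ U, f t := by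
  apply finsum_mem_inter_support_eq
  ext t
  simp only [mem_inter_iff, Function.mem_support]
  constructor
  · rintro ⟨⟨h1, h2⟩, h3⟩
    have hz : z t ≠ 0 := fun h => h3 (hf t h)
    exact ⟨⟨(Pts_iff hu hN hz).1 h1, h2⟩, h3⟩
  · rintro ⟨⟨h1, h2⟩, h3⟩
    have hz : z t ≠ 0 := fun h => h3 (hf t h)
    exact ⟨⟨(Pts_iff hu hN hz).2 h1, h2⟩, h3⟩

lemma D_eq {u : ℂ} {N k : ℕ} (hu : u ≠ 0) (hN : 1 ≤ N) (hk : 1 ≤ k) (S T : ℝ) :
    D u k N S T = SS (cc u N) N (Zk k) S T := by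
  unfold D SS
  rw [sum_eq hu hN]
  · rfl
  · intro t ht
    rw [ht, norm_zero, zero_pow (by omega)]

lemma Pts_one_sub {u : ℂ} (N : ℕ) : Pts u 1 ⊆ Pts u N := by
  rintro t ⟨h1, j, r, hr, h2⟩
  refine ⟨h1, 0, r * (-1) ^ j, mul_ne_zero hr (pow_ne_zero _ (by norm_num)), ?_⟩
  rw [h2]
  have e1 : Complex.exp (Real.pi * Complex.I * j / (1 : ℕ)) = (-1) ^ j := by
    have e : (Real.pi * Complex.I * j / (1 : ℕ) : ℂ) = j * (Real.pi * Complex.I) := by
      push_cast; ring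
    rw [e, Complex.exp_nat_mul, Complex.exp_pi_mul_I]
  rw [e1]
  push_cast
  simp
  ring

theorem result :
    -- the sample points are locally finite
    (∀ (u : ℂ) (N : ℕ) (T : ℝ), u ≠ 0 → 1 ≤ N → (Pts u N ∩ Iic T).Finite) ∧
    -- the asymptotic formulas for the moment and for the discrete moment over `N ≥ k - 1` lines are equivalent
    (∀ (u : ℂ) (k N : ℕ) (a : ℝ), u ≠ 0 → 1 ≤ k → 1 ≤ N → k ≤ N + 1 →
      (Tendsto (fun T => M k T / Real.log T ^ (k ^ 2)) atTop (𝓝 a) ↔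
        Tendsto (fun T => (1 / T * D u k N 100 T) / Real.log T ^ (k ^ 2 + 1)) atTop
          (𝓝 (N * a / (2 * Real.pi))))) ∧
    -- unconditional two-sided inequalities
    (∀ (u : ℂ) (k N : ℕ) (ε : ℝ), u ≠ 0 → 1 ≤ k → 1 ≤ N → k ≤ N + 1 → 0 < ε → ε < 1 →
      ∀ᶠ T : ℝ in atTop,
        (N / (2 * Real.pi) - ε) * (Real.log T * ∫ t in T..(2 * T), ‖z t‖ ^ (2 * k)) ≤
          D u k N ((1 - ε) * T) ((2 + ε) * T) ∧
        D u k N T (2 * T) ≤ (N / (2 * Real.pi) + ε) *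
          (Real.log T * ∫ t in ((1 - ε) * T)..((2 + ε) * T), ‖z t‖ ^ (2 * k))) ∧
    -- every single line
    (∀ (u : ℂ) (k : ℕ) (ε : ℝ), u ≠ 0 → 2 ≤ k → 0 < ε → ε < 1 →
      ∀ᶠ T : ℝ in atTop,
        D u k 1 T (2 * T) ≤ ((k - 1) / (2 * Real.pi) + ε) *
          (Real.log T * ∫ t in ((1 - ε) * T)..((2 + ε) * T), ‖z t‖ ^ (2 * k))) := by
  refine ⟨fun u N T hu hN => ?_, fun u k N a hu hk hN hkN => ?_,
    fun u k N ε hu hk hN hkN h0 h1 => ?_, fun u k ε hu hk h0 h1 => ?_⟩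
  · refine (a_line.2.2.2.2.2.2.2.2.2 (cc u N) N (cc_norm hu N) hN T).subset ?_
    rintro t ⟨h1, h2⟩
    exact ⟨(Pts_iff hu hN (Pts_ne hu h1)).1 h1, h2⟩
  · -- the equivalence
    have h := equiv a_taub a_wt a_line a_meas a_quad a_qs (cc_norm hu N) hk hN hkN a
    have hpi := Real.pi_pos
    have hN0 : (0 : ℝ) < N := by exact_mod_cast hN
    have e1 : ∀ T : ℝ, M k T / Real.log T ^ (k ^ 2) =
        (∫ t in (0 : ℝ)..T, Zk k t) / (T * Real.log T ^ ((k : ℝ) ^ 2)) := by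
      intro T
      have : Real.log T ^ ((k : ℝ) ^ 2) = Real.log T ^ (k ^ 2) := by
        rw [← Real.rpow_natCast (Real.log T) (k ^ 2)]; push_cast; rfl
      rw [this]
      simp only [M, Zk_z]
      rw [one_div, inv_mul_eq_div, div_div]
    have hS0 : ∀ T : ℝ, 100 ≤ T → D u k N 100 T = SS (cc u N) N (Zk k) 0 T := by
      intro T hT
      rw [D_eq hu hN hk, SS_add a_line (cc_norm hu N) hN (Zk k) (a := 0) (b := 100) (d := T)
        (by norm_num) hT]
      have : SS (cc u N) N (Zk k) 0 100 = 0 := by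
        unfold SS
        have he : PP (cc u N) N ∩ Ioc 0 100 = ∅ := by
          ext t
          simp only [mem_inter_iff, mem_Ioc, mem_empty_iff_false, iff_false]
          rintro ⟨⟨h1, -⟩, -, h2⟩
          linarith
        rw [he, finsum_mem_empty]
      rw [this, zero_add]
    have e2 : ∀ᶠ T : ℝ in atTop, (1 / T * D u k N 100 T) / Real.log T ^ (k ^ 2 + 1) =
        N / (2 * Real.pi) * (2 * Real.pi / N * SS (cc u N) N (Zk k) 0 T /
          (T * Real.log T ^ ((k : ℝ) ^ 2 + 1))) := by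
      filter_upwards [eventually_ge_atTop 100] with T hT
      have : Real.log T ^ ((k : ℝ) ^ 2 + 1) = Real.log T ^ (k ^ 2 + 1) := by
        rw [← Real.rpow_natCast (Real.log T) (k ^ 2 + 1)]; push_cast; rfl
      rw [this, hS0 T hT]
      have hT0 : T ≠ 0 := by linarith
      field_simp
    simp only [e1]
    rw [h]
    constructor
    · intro h2
      have h3 := h2.const_mul (N / (2 * Real.pi))
      have e3 : (N : ℝ) * a / (2 * Real.pi) = N / (2 * Real.pi) * a := by ring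
      rw [e3]
      refine h3.congr' ?_
      filter_upwards [e2] with T hT
      rw [hT]
    · intro h2
      have h3 := h2.const_mul (2 * Real.pi / N)
      have e3 : 2 * Real.pi / N * (N * a / (2 * Real.pi)) = a := by field_simp
      rw [e3] at h3
      refine h3.congr' ?_
      filter_upwards [e2] with T hT
      rw [hT, ← mul_assoc]
      have e4 : 2 * Real.pi / N * (N / (2 * Real.pi)) = (1 : ℝ) := by field_simp
      rw [e4, one_mul]
  · have hu1 := upper a_maj a_line a_meas a_quad a_qs (cc_norm hu N) hk hN hkN h0 h1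
    have hl1 := lower a_maj a_maj2 a_line a_meas a_quad a_qs (cc_norm hu N) hk hN hkN h0 h1
    filter_upwards [hu1, hl1] with T h2 h3
    rw [D_eq hu hN hk, D_eq hu hN hk]
    exact ⟨h3, h2⟩
  · have hu1 := upper a_maj a_line a_meas a_quad a_qs (cc_norm hu (k - 1)) (k := k) (N := k - 1)
      (by omega) (by omega) (by omega) h0 h1
    filter_upwards [hu1] with T h2
    have e1 : ((k - 1 : ℕ) : ℝ) = (k : ℝ) - 1 := by
      rw [Nat.cast_sub (by omega)]; norm_num
    rw [e1, ← D_eq hu (by omega) (by omega)] at h2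
    refine le_trans ?_ h2
    unfold D
    have hfin : ∀ (N : ℕ), 1 ≤ N → (Pts u N ∩ Ioc T (2 * T)).Finite := by
      intro N hN
      refine (a_line.2.2.2.2.2.2.2.2.2 (cc u N) N (cc_norm hu N) hN (2 * T)).subset ?_
      rintro t ⟨h1, h2⟩
      exact ⟨(Pts_iff hu hN (Pts_ne hu h1)).1 h1, h2.2⟩
    rw [finsum_mem_eq_finite_toFinset_sum _ (hfin 1 le_rfl),
      finsum_mem_eq_finite_toFinset_sum _ (hfin (k - 1) (by omega))]
    apply Finset.sum_le_sum_of_subset_of_nonneg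
    · rw [Set.Finite.toFinset_subset_toFinset]
      exact inter_subset_inter_left _ (Pts_one_sub _)
    · intro t _ _
      positivity

end Pool.Agent.Results.MP_112ba8_nt.FewLinesMoments
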