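import Mathlib
import Pool.Agent.W188.Mom.B4

/-!
# The moments of zeta and the points of the critical curve on one ray

Let `u ≠ 0` be any complex number and let `k > 0` be real (for instance an integer `k ≥ 3`).  The points
`ζ(1/2 + iv)`, `100 ≤ v ≤ T`, on the ray `{r u : r > 0}` are finitely many; let `T * MR k u T` be the sum of
`|ζ(1/2 + iv)|^(2k)` over these `v`.  For example, for `u = -1` these are the points at which `ζ(1/2 + iv)` is a
negative real number (the Gram points that violate the weak Gram law).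

* `M k T ≤ (C log T)^(2k+1) (1 + MR k u (2T))` for all large `T`, with `C` independent of `k`, `u` and `T`.
* The bound `M k T = O(T^ε)` (all `ε > 0`) for the `2k`-th moment is equivalent to `MR k u T = O(T^ε)`: it is
  enough to bound the `2k`-th moment over the points of ONE ray.
* If `k > 1 + √2`, in particular for all integers `k ≥ 3`, then unconditionally, for every direction `u`,
  `MR k u T ≥ c (log T)^(k^2 - 2k - 1)`: all rays carry large moments.

Proof.  Near every `T` at which `|ζ(1/2 + iT)| ≥ C log T` there is a point of the ray, at distance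
`O(log log T)`, at which `|ζ| ≥ |ζ(1/2 + iT)| / (C log T)` (one-sided version of the maximum principle, from
the functional equation).  Conversely large values of `|ζ|` persist on a positive proportion of the windows
around them.  The lower bounds use those for the moments with exponent `2k`.
-/

set_option autoImplicit false

open Filter Topology Set

namespace Pool.Agent.Results.MP_112ba8_nt.OneRayMoments

/-- The moment `(1/T) ∫_0^T |ζ(1/2 + it)|^(2k) dt`. -/
noncomputable def M (k T : ℝ) : ℝ :=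
  1 / T * ∫ t in (0 : ℝ)..T, ‖riemannZeta (1 / 2 + t * Complex.I)‖ ^ (2 * k)

/-- The points `v` with `100 ≤ v ≤ T` at which `ζ(1/2 + iv)` lies on the ray of direction `u`. -/
def Ray (u : ℂ) (T : ℝ) : Set ℝ :=
  {v | 100 ≤ v ∧ v ≤ T ∧ ∃ r : ℝ, 0 < r ∧ riemannZeta (1 / 2 + v * Complex.I) = r * u}

/-- The discrete moment over the points on the ray. -/
noncomputable def MR (k : ℝ) (u : ℂ) (T : ℝ) : ℝ :=
  1 / T * ∑ᶠ v ∈ Ray u T, ‖riemannZeta (1 / 2 + v * Complex.I)‖ ^ (2 * k)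

open Pool.Agent.W188.Mom in
lemma MR_eq {u : ℂ} (hu : u ≠ 0) (k T : ℝ) : MR k u T = 1 / T * RS (u / (‖u‖ : ℂ)) (2 * k) T := by
  rw [← RS_norm hu]
  rfl

open Pool.Agent.W188.Mom in
theorem result :
    (∀ (u : ℂ) (T : ℝ), u ≠ 0 → (Ray u T).Finite) ∧
    (∃ C T₀ : ℝ, 0 < C ∧ ∀ k : ℝ, 0 < k → ∀ u : ℂ, u ≠ 0 → ∀ T : ℝ, T₀ ≤ T →
      M k T ≤ (C * Real.log T) ^ (2 * k + 1) * (1 + MR k u (2 * T))) ∧
    (∀ k : ℝ, 0 < k → ∀ u : ℂ, u ≠ 0 →
      ((∀ ε : ℝ, 0 < ε → ∃ B : ℝ, ∀ T : ℝ, 1 ≤ T → M k T ≤ B * T ^ ε) ↔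
        (∀ ε : ℝ, 0 < ε → ∃ B : ℝ, ∀ T : ℝ, 1 ≤ T → MR k u T ≤ B * T ^ ε))) ∧
    (∀ k : ℝ, 0 < k → 2 * k + 1 < k ^ 2 → ∃ c T₀ : ℝ, 0 < c ∧ ∀ u : ℂ, u ≠ 0 → ∀ T : ℝ, T₀ ≤ T →
      c * Real.log T ^ (k ^ 2 - 2 * k - 1) ≤ MR k u T) := by
  refine ⟨fun u T hu => ?_, ?_, fun k hk u hu => ?_, fun k hk hk2 => ?_⟩
  · have : Ray u T = RP (u / (‖u‖ : ℂ)) T := RP_norm hu T
    rw [this]
    exact RP_finite (norm_dir hu) T
  · obtain ⟨C, N, hC, hN, h⟩ := major
    refine ⟨2 * C, N, by linarith, fun k hk u hu T hT => ?_⟩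
    have hT0 : 0 < T := by linarith
    have h1 := h T hT _ (norm_dir hu) (2 * k) (by positivity)
    have hlog : 0 < Real.log T := Real.log_pos (by linarith)
    have hR := RS_nonneg (u / (‖u‖ : ℂ)) (2 * k) (2 * T)
    rw [MR_eq hu]
    unfold M
    rw [one_div, inv_mul_le_iff₀ hT0]
    have h2 : (2 * C * Real.log T) ^ (2 * k + 1) =
        2 ^ (2 * k + 1) * (C * Real.log T) ^ (2 * k + 1) := by
      rw [mul_assoc, Real.mul_rpow (by norm_num) (by positivity)]
    have h3 : (1 : ℝ) ≤ 2 ^ (2 * k + 1) := Real.one_le_rpow (by norm_num) (by linarith)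
    have h4 : (1 : ℝ) * 2 ≤ 2 ^ (2 * k + 1) := by
      calc (1 : ℝ) * 2 = 2 ^ (1 : ℝ) := by norm_num
        _ ≤ 2 ^ (2 * k + 1) := Real.rpow_le_rpow_of_exponent_le (by norm_num) (by linarith)
    refine h1.trans ?_
    have hD : 0 < (C * Real.log T) ^ (2 * k + 1) := by positivity
    have e : T * ((2 * C * Real.log T) ^ (2 * k + 1) *
        (1 + 1 / (2 * T) * RS (u / (‖u‖ : ℂ)) (2 * k) (2 * T))) =
        (C * Real.log T) ^ (2 * k + 1) * (2 ^ (2 * k + 1) *
          (T + RS (u / (‖u‖ : ℂ)) (2 * k) (2 * T) / 2)) := by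
      rw [h2]; field_simp
    rw [e]
    apply mul_le_mul_of_nonneg_left _ hD.le
    calc T + RS (u / (‖u‖ : ℂ)) (2 * k) (2 * T)
        ≤ (1 * 2) * (T + RS (u / (‖u‖ : ℂ)) (2 * k) (2 * T) / 2) := by linarith
      _ ≤ _ := mul_le_mul_of_nonneg_right h4 (by linarith)
  · constructor
    · intro h ε hε
      obtain ⟨B, hB⟩ := ray_of_moment (by positivity : 0 < 2 * k) h (norm_dir hu) ε hε
      exact ⟨B, fun T hT => by rw [MR_eq hu]; exact hB T hT⟩
    · intro h
      apply moment_of_ray (by positivity : 0 < 2 * k) (norm_dir hu)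
      intro ε hε
      obtain ⟨B, hB⟩ := h ε hε
      exact ⟨B, fun T hT => by rw [← MR_eq hu]; exact hB T hT⟩
  · have e1 : (2 * k) ^ 2 / 4 = k ^ 2 := by ring
    obtain ⟨c, T₀, hc, h⟩ := ray_lower (p := 2 * k) (by nlinarith) (by rw [e1]; exact hk2)
    refine ⟨c, max T₀ 1, hc, fun u hu T hT => ?_⟩
    have hT1 : 1 ≤ T := le_trans (le_max_right _ _) hT
    have h1 := h T (le_trans (le_max_left _ _) hT) _ (norm_dir hu)
    rw [e1] at h1
    rw [MR_eq hu, one_div, ← div_eq_inv_mul, le_div_iff₀ (by linarith)]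
    calc c * Real.log T ^ (k ^ 2 - 2 * k - 1) * T = c * T * Real.log T ^ (k ^ 2 - 2 * k - 1) := by ring
      _ ≤ _ := h1

end Pool.Agent.Results.MP_112ba8_nt.OneRayMoments
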