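import Mathlib
import Pool.Agent.W188.QS.All5
import Pool.Agent.W188.QS.Asm3

/-!
# A sampling theorem for the moments of zeta

Let `k ≥ 1`, `N ≥ k + 1` and `u ≠ 0`.  Consider the heights `t > 100` at which `ζ(1/2 + it)` is a nonzero point of
one of the `N` lines `u e^{πij/N} ℝ`, with the weights `2π / (N λ(t))`, where `λ(t) = -(χ'/χ)(1/2 + it)`, about
`log (t/2π)`.  The weighted sums of `|ζ(1/2 + it)|^{2k}` over these heights

* agree with the integral of `|ζ(1/2 + it)|^{2k}` up to `O(T^{-2})` for all Gaussian averages near `T` of width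
  `1 ≤ Δ ≤ T / (B √(log T))`;
* with the sharp cut-off `t ≤ T` they differ from `∫_0^T |ζ|^{2k}` at most by a constant times
  `1 + ∫ e^{-(t-T)^2} |ζ(1/2 + it)|^{2k} dt`, the local moment at height `T` on the scale `1`;
* an asymptotic formula with error term `O(T^{θ+ε})` (all `ε > 0`), `θ ≥ 0`, for one of the two holds if and only if
  it holds for the other one; for `θ = 1/2` and the moment polynomial of Conrey, Farmer, Keating, Rubinstein and
  Snaith this is the full moment conjecture.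

Parts were formalized by the team (see the imported files), plan and assembly by helper188.
-/

set_option autoImplicit false

open Filter Topology Set MeasureTheory

namespace Pool.Agent.Results.MP_112ba8_nt.SamplingTheorem

/-- The value `ζ(1/2 + it)`. -/
noncomputable def z (t : ℝ) : ℂ := riemannZeta (1 / 2 + t * Complex.I)

/-- The heights `t > 100` at which `ζ(1/2 + it)` is a nonzero point of one of the `N` lines `u e^{πij/N} ℝ`. -/
def Pts (u : ℂ) (N : ℕ) : Set ℝ :=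
  {t | 100 < t ∧ ∃ (j : ℕ) (r : ℝ), r ≠ 0 ∧ z t = r * (u * Complex.exp (Real.pi * Complex.I * j / N))}

/-- The factor `X(s) = χ(1 - s)` of the functional equation `ζ(1 - s) = X(s) ζ(s)`. -/
noncomputable def X (s : ℂ) : ℂ :=
  2 * (2 * (Real.pi : ℂ)) ^ (-s) * Complex.Gamma s * Complex.cos (Real.pi * s / 2)

/-- The logarithmic derivative of `X` at `1/2 + it` (a real number, close to `log (t/2π)`). -/
noncomputable def lam (t : ℝ) : ℝ := (logDeriv X (1 / 2 + t * Complex.I)).re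

/-- The weighted sum of `|ζ(1/2 + it)|^{2k}` over the heights `100 < t ≤ T` in `Pts u N`. -/
noncomputable def S (k N : ℕ) (u : ℂ) (T : ℝ) : ℝ :=
  2 * Real.pi / N * ∑ᶠ t ∈ Pts u N ∩ Ioc 100 T, ‖z t‖ ^ (2 * k) / lam t

open Pool.Agent.W188.QS

lemma z_eq (t : ℝ) : z t = riemannZeta (cp t) := rfl

lemma X_eq : X = XX := rfl

lemma lam_eq (t : ℝ) : lam t = Pool.Agent.W188.QS.lam t := rfl

lemma Zk_z (k : ℕ) (t : ℝ) : ‖z t‖ ^ (2 * k) = Zk k t := rfl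

/-- the number `c` that belongs to the direction `u` -/
noncomputable def cc (u : ℂ) (N : ℕ) : ℂ := ((u / (‖u‖ : ℂ))⁻¹) ^ (2 * N)

lemma cc_norm {u : ℂ} (hu : u ≠ 0) (N : ℕ) : ‖cc u N‖ = 1 := by
  have h : ‖u‖ ≠ 0 := norm_ne_zero_iff.2 hu
  unfold cc
  rw [norm_pow, norm_inv, norm_div, Complex.norm_real, norm_norm, div_self h]
  simp

/-- points on the critical line with `w = 1`, in terms of `ζ` -/
lemma ww_iff {c : ℂ} {N : ℕ} {t : ℝ} (ht : 1 ≤ t) (hz : z t ≠ 0) :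
    ww c N (cp t) = 1 ↔ c * z t ^ (2 * N) = ((‖z t‖ ^ (2 * N) : ℝ) : ℂ) := by
  have hX : ‖XX (cp t)‖ = 1 := a_line.2.1 t
  have hX0 : XX (cp t) ≠ 0 := by
    intro h
    rw [h] at hX
    simp at hX
  have hfe : (starRingEnd ℂ) (z t) = XX (cp t) * z t := a_line.2.2.1 t ht
  have h1 : ((‖z t‖ ^ (2 * N) : ℝ) : ℂ) = XX (cp t) ^ N * z t ^ (2 * N) := by
    have h2 : ((‖z t‖ ^ 2 : ℝ) : ℂ) = XX (cp t) * z t ^ 2 := by
      have h3 := Complex.mul_conj (z t)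
      rw [hfe, Complex.normSq_eq_norm_sq] at h3
      rw [← h3]; ring
    rw [pow_mul, Complex.ofReal_pow, h2, mul_pow, pow_mul]
  rw [h1]
  have hz2 : z t ^ (2 * N) ≠ 0 := pow_ne_zero _ hz
  unfold ww
  rw [inv_pow]
  constructor
  · intro h
    have h2 : c = XX (cp t) ^ N := by
      have := congrArg (fun x => x * XX (cp t) ^ N) h
      simp only [one_mul] at this
      rw [mul_assoc, inv_mul_cancel₀ (pow_ne_zero _ hX0), mul_one] at this
      exact this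
    rw [h2]
  · intro h
    have h2 : c = XX (cp t) ^ N := mul_right_cancel₀ hz2 h
    rw [h2]
    exact mul_inv_cancel₀ (pow_ne_zero _ hX0)

/-- the algebraic description of the `N` lines -/
lemma line_iff {u x : ℂ} {N : ℕ} (hu : u ≠ 0) (hN : 1 ≤ N) (hx : x ≠ 0) :
    cc u N * x ^ (2 * N) = ((‖x‖ ^ (2 * N) : ℝ) : ℂ) ↔
      ∃ (j : ℕ) (r : ℝ), r ≠ 0 ∧ x = r * (u * Complex.exp (Real.pi * Complex.I * j / N)) := by
  have hu0 : ‖u‖ ≠ 0 := norm_ne_zero_iff.2 hu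
  have hx0 : ‖x‖ ≠ 0 := norm_ne_zero_iff.2 hx
  have hu1 : (‖u‖ : ℂ) ≠ 0 := by exact_mod_cast hu0
  have hx1 : (‖x‖ : ℂ) ≠ 0 := by exact_mod_cast hx0
  have hN0 : (N : ℂ) ≠ 0 := by
    have : N ≠ 0 := by omega
    exact_mod_cast this
  set v : ℂ := (u / (‖u‖ : ℂ))⁻¹ * (x / (‖x‖ : ℂ)) with hv
  have hv1 : cc u N * x ^ (2 * N) = v ^ (2 * N) * ((‖x‖ ^ (2 * N) : ℝ) : ℂ) := by
    rw [hv, cc, mul_pow, div_pow]
    push_cast
    field_simp
  have hX0 : ((‖x‖ ^ (2 * N) : ℝ) : ℂ) ≠ 0 := by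
    push_cast
    exact pow_ne_zero _ hx1
  have hxv : x = ((‖x‖ / ‖u‖ : ℝ) : ℂ) * (u * v) := by
    rw [hv]
    push_cast
    field_simp
  constructor
  · intro h
    rw [hv1] at h
    have h1 : v ^ (2 * N) = 1 := by
      have h2 : v ^ (2 * N) * ((‖x‖ ^ (2 * N) : ℝ) : ℂ) = 1 * ((‖x‖ ^ (2 * N) : ℝ) : ℂ) := by
        rw [h, one_mul]
      exact mul_right_cancel₀ hX0 h2
    have h2N : 2 * N ≠ 0 := by omega
    have : NeZero (2 * N) := ⟨h2N⟩
    obtain ⟨j, hj, hj2⟩ := (Complex.isPrimitiveRoot_exp (2 * N) h2N).eq_pow_of_pow_eq_one h1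
    refine ⟨j, ‖x‖ / ‖u‖, div_ne_zero hx0 hu0, ?_⟩
    have e1 : Complex.exp (Real.pi * Complex.I * j / N) = v := by
      rw [← hj2, ← Complex.exp_nat_mul]
      congr 1
      push_cast
      field_simp
    rw [e1]
    exact hxv
  · rintro ⟨j, r, hr, hxr⟩
    have hE : Complex.exp (Real.pi * Complex.I * j / N) ^ (2 * N) = 1 := by
      rw [← Complex.exp_nat_mul]
      have : ((2 * N : ℕ) : ℂ) * (Real.pi * Complex.I * j / N) = (j : ℤ) * (2 * Real.pi * Complex.I) := by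
        push_cast
        field_simp
      rw [this, Complex.exp_int_mul_two_pi_mul_I]
    have hEn : ‖Complex.exp (Real.pi * Complex.I * j / N)‖ = 1 := by
      have e : (Real.pi * Complex.I * j / N : ℂ) = ((Real.pi * j / N : ℝ) : ℂ) * Complex.I := by
        push_cast; ring
      rw [e, Complex.norm_exp_ofReal_mul_I]
    have hxn : ‖x‖ = |r| * ‖u‖ := by
      rw [hxr, norm_mul, norm_mul, hEn, Complex.norm_real, Real.norm_eq_abs, mul_one]
    have h4 : ((‖x‖ ^ (2 * N) : ℝ) : ℂ) = (r : ℂ) ^ (2 * N) * (‖u‖ : ℂ) ^ (2 * N) := by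
      rw [hxn, mul_pow, pow_mul |r|, sq_abs, ← pow_mul]
      push_cast
      ring
    rw [h4, cc, hxr]
    set E := Complex.exp (Real.pi * Complex.I * j / N)
    have : ((u / (‖u‖ : ℂ))⁻¹) ^ (2 * N) * ((r : ℂ) * (u * E)) ^ (2 * N) =
        (r : ℂ) ^ (2 * N) * (‖u‖ : ℂ) ^ (2 * N) * E ^ (2 * N) := by
      rw [inv_div, ← mul_pow, ← mul_pow, ← mul_pow]
      congr 1
      field_simp
    rw [this, hE, mul_one]

lemma Pts_iff {u : ℂ} {N : ℕ} (hu : u ≠ 0) (hN : 1 ≤ N) {t : ℝ} (hz : z t ≠ 0) :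
    t ∈ Pts u N ↔ t ∈ PP (cc u N) N := by
  constructor
  · rintro ⟨h1, h2⟩
    exact ⟨h1, (ww_iff (by linarith) hz).2 ((line_iff hu hN hz).2 h2)⟩
  · rintro ⟨h1, h2⟩
    exact ⟨h1, (line_iff hu hN hz).1 ((ww_iff (by linarith) hz).1 h2)⟩

lemma Pts_ne {u : ℂ} {N : ℕ} (hu : u ≠ 0) {t : ℝ} (h : t ∈ Pts u N) : z t ≠ 0 := by
  obtain ⟨-, j, r, hr, h2⟩ := h
  rw [h2]
  refine mul_ne_zero (by exact_mod_cast hr) (mul_ne_zero hu (Complex.exp_ne_zero _))

/-- sums over `Pts` and over `PP` -/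
lemma sum_eq {u : ℂ} {N : ℕ} (hu : u ≠ 0) (hN : 1 ≤ N) (U : Set ℝ) (f : ℝ → ℝ)
    (hf : ∀ t, z t = 0 → f t = 0) :
    ∑ᶠ t ∈ Pts u N ∩ U, f t = ∑ᶠ t ∈ PP (cc u N) N ∩ U, f t := by
  apply finsum_mem_inter_support_eq
  ext t
  simp only [mem_inter_iff, Function.mem_support]
  constructor
  · rintro ⟨⟨h1, h2⟩, h3⟩
    have hz : z t ≠ 0 := fun h => h3 (hf t h)
    exact ⟨⟨(Pts_iff hu hN hz).1 h1, h2⟩, h3⟩
  · rintro ⟨⟨h1, h2⟩, h3⟩
    have hz : z t ≠ 0 := fun h => h3 (hf t h)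
    exact ⟨⟨(Pts_iff hu hN hz).2 h1, h2⟩, h3⟩

/-- sums with weights -/
lemma sum_rho {u : ℂ} {N k : ℕ} (hu : u ≠ 0) (hN : 1 ≤ N) (hk : 1 ≤ k) (U : Set ℝ) (x : ℝ)
    (hU : U ⊆ Iic x) (g : ℝ → ℝ) :
    2 * Real.pi / N * (∑ᶠ t ∈ Pts u N ∩ U, ‖z t‖ ^ (2 * k) * g t / lam t) =
      ∑ᶠ t ∈ PP (cc u N) N ∩ U, rho k N t * g t := by
  rw [sum_eq hu hN]
  · have hf : (PP (cc u N) N ∩ U).Finite :=
      (a_line.2.2.2.2.2.2.2.2.2 (cc u N) N (cc_norm hu N) hN x).subset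
        (inter_subset_inter_right _ hU)
    rw [finsum_mem_eq_finite_toFinset_sum _ hf, finsum_mem_eq_finite_toFinset_sum _ hf,
      Finset.mul_sum]
    apply Finset.sum_congr rfl
    intro t _
    simp only [rho, lam_eq, Zk_z]
    ring
  · intro t ht
    rw [ht, norm_zero, zero_pow (by omega)]
    simp

lemma S_eq {u : ℂ} {N k : ℕ} (hu : u ≠ 0) (hN : 1 ≤ N) (hk : 1 ≤ k) {T : ℝ} :
    S k N u T = (nuk (cc u N) k N).real (Ioc 0 T) := by
  have h1 := sum_rho (k := k) hu hN hk (Ioc 100 T) T (fun _ h => h.2) (fun _ => 1)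
  simp only [mul_one] at h1
  unfold S
  rw [h1, nuk_real a_meas (cc_norm hu N) hk hN]
  unfold SS
  have : PP (cc u N) N ∩ Ioc 100 T = PP (cc u N) N ∩ Ioc 0 T := by
    ext t
    simp only [mem_inter_iff, mem_Ioc]
    constructor
    · rintro ⟨h2, h3, h4⟩
      exact ⟨h2, by linarith, h4⟩
    · rintro ⟨h2, h3, h4⟩
      exact ⟨h2, h2.1, h4⟩
  rw [this]

theorem result :
    -- Gaussian averages
    (∀ k N : ℕ, 1 ≤ k → k + 1 ≤ N → ∃ B C T₀ : ℝ, ∀ (u : ℂ) (T Δ : ℝ), u ≠ 0 → T₀ ≤ T → 1 ≤ Δ →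
      B * Δ * √(Real.log T) ≤ T →
      |2 * Real.pi / N * (∑ᶠ t ∈ Pts u N ∩ Ioo (T / 2) (3 * T / 2),
          ‖z t‖ ^ (2 * k) * Real.exp (-((t - T) / Δ) ^ 2) / lam t) -
        ∫ t in (T / 2)..(3 * T / 2), ‖z t‖ ^ (2 * k) * Real.exp (-((t - T) / Δ) ^ 2)| ≤
        C * T ^ (-(2 : ℝ))) ∧
    -- sharp cut-off
    (∀ (u : ℂ) (k N : ℕ), u ≠ 0 → 1 ≤ k → k + 1 ≤ N → ∃ C T₀ : ℝ, ∀ T : ℝ, T₀ ≤ T →
      |S k N u T - ∫ t in (0 : ℝ)..T, ‖z t‖ ^ (2 * k)| ≤
        C * (1 + ∫ t in (T / 2)..(3 * T / 2), ‖z t‖ ^ (2 * k) * Real.exp (-(t - T) ^ 2))) ∧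
    -- error terms
    (∀ (u : ℂ) (k N : ℕ) (θ : ℝ) (R : ℝ → ℝ), u ≠ 0 → 1 ≤ k → k + 1 ≤ N → 0 ≤ θ →
      (∀ ε : ℝ, 0 < ε → ∃ B : ℝ, ∀ T s : ℝ, 1 ≤ T → 0 ≤ s → s ≤ 1 →
        |R (T + s) - R T| ≤ B * T ^ (θ + ε)) →
      ((∀ ε : ℝ, 0 < ε → ∃ B : ℝ, ∀ T : ℝ, 1 ≤ T →
          |(∫ t in (0 : ℝ)..T, ‖z t‖ ^ (2 * k)) - R T| ≤ B * T ^ (θ + ε)) ↔
        (∀ ε : ℝ, 0 < ε → ∃ B : ℝ, ∀ T : ℝ, 1 ≤ T → |S k N u T - R T| ≤ B * T ^ (θ + ε)))) ∧
    -- the weights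
    (∀ t : ℝ, 100 < t → |lam t - Real.log (t / (2 * Real.pi))| ≤ 14 / t) := by
  refine ⟨fun k N hk hN => ?_, fun u k N hu hk hN => ?_, fun u k N θ R hu hk hN hθ hR => ?_,
    fun t ht => ?_⟩
  · obtain ⟨B, C, T₀, -, -, h⟩ := exact a_quad a_qb hk hN
    refine ⟨B, C, T₀, fun u T Δ hu hT hD hB => ?_⟩
    have h2 := h (cc u N) T Δ (cc_norm hu N) hT hD hB
    rw [sum_rho hu (by omega) hk (Ioo (T / 2) (3 * T / 2)) (3 * T / 2) (fun _ h => h.2.le)]
    exact h2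
  · have hN1 : 1 ≤ N := by omega
    obtain ⟨m1, m2, m3, -, -, m6, -⟩ := a_meas (cc u N) k N (cc_norm hu N) hk hN1
    obtain ⟨A, g1, g2⟩ := a_grow (cc u N) k N (cc_norm hu N) hk hN1 (by omega)
    obtain ⟨C, T₀, h⟩ := a_sharp A (muk k) (nuk (cc u N) k N) m1 m2 (muk_one k)
      (nuk_one (cc u N) k N) g2 g1 (exact_one hk hN (cc_norm hu N))
    have hC : ∀ T : ℝ, T₀ ≤ T → |(nuk (cc u N) k N).real (Ioc 0 T) - (muk k).real (Ioc 0 T)| ≤
        |C| * (1 + ∫ t in Ioo (T / 2) (3 * T / 2), gg T 1 t ∂(muk k)) := by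
      intro T hT
      refine (h T hT).trans ?_
      apply mul_le_mul_of_nonneg_right (le_abs_self C)
      have : 0 ≤ ∫ t in Ioo (T / 2) (3 * T / 2), gg T 1 t ∂(muk k) :=
        integral_nonneg (fun t => (Real.exp_pos _).le)
      linarith
    refine ⟨|C| + |∫ t in (0 : ℝ)..100, Zk k t|, max T₀ 200, fun T hT => ?_⟩
    have hT1 : T₀ ≤ T := (le_max_left _ _).trans hT
    have hT2 : 200 ≤ T := (le_max_right _ _).trans hT
    have h3 := hC T hT1
    rw [m6 T (by linarith), m3 _ (gg_cont T 1) _ _ (by linarith) (by linarith)] at h3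
    rw [S_eq hu hN1 hk]
    have e1 : ∫ t in (0 : ℝ)..T, ‖z t‖ ^ (2 * k) =
        (∫ t in (0 : ℝ)..100, Zk k t) + ∫ t in (100 : ℝ)..T, Zk k t :=
      (intervalIntegral.integral_add_adjacent_intervals ((Zk_cont k).intervalIntegrable _ _)
        ((Zk_cont k).intervalIntegrable _ _)).symm
    have e2 : ∫ t in (T / 2)..(3 * T / 2), Zk k t * gg T 1 t =
        ∫ t in (T / 2)..(3 * T / 2), ‖z t‖ ^ (2 * k) * Real.exp (-(t - T) ^ 2) := by
      apply intervalIntegral.integral_congr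
      intro t _
      simp only [gg, div_one, Zk_z]
    rw [e2] at h3
    rw [e1]
    set G := ∫ t in (T / 2)..(3 * T / 2), ‖z t‖ ^ (2 * k) * Real.exp (-(t - T) ^ 2) with hG
    have hG0 : 0 ≤ G := by
      rw [hG]
      apply intervalIntegral.integral_nonneg (by linarith)
      intro t _
      positivity
    have h4 : |(nuk (cc u N) k N).real (Ioc 0 T) -
        ((∫ t in (0 : ℝ)..100, Zk k t) + ∫ t in (100 : ℝ)..T, Zk k t)| ≤
        |(nuk (cc u N) k N).real (Ioc 0 T) - ∫ t in (100 : ℝ)..T, Zk k t| +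
          |∫ t in (0 : ℝ)..100, Zk k t| := by
      rw [show (nuk (cc u N) k N).real (Ioc 0 T) -
        ((∫ t in (0 : ℝ)..100, Zk k t) + ∫ t in (100 : ℝ)..T, Zk k t) =
        ((nuk (cc u N) k N).real (Ioc 0 T) - ∫ t in (100 : ℝ)..T, Zk k t) -
          ∫ t in (0 : ℝ)..100, Zk k t by ring]
      exact abs_sub _ _
    have h5 : |∫ t in (0 : ℝ)..100, Zk k t| ≤ |∫ t in (0 : ℝ)..100, Zk k t| * (1 + G) :=
      le_mul_of_one_le_right (abs_nonneg _) (by linarith)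
    calc _ ≤ _ := h4
      _ ≤ |C| * (1 + G) + |∫ t in (0 : ℝ)..100, Zk k t| * (1 + G) := add_le_add h3 h5
      _ = _ := by ring
  · have hN1 : 1 ≤ N := by omega
    obtain ⟨m1, m2, m3, -, -, m6, -⟩ := a_meas (cc u N) k N (cc_norm hu N) hk hN1
    obtain ⟨A, g1, g2⟩ := a_grow (cc u N) k N (cc_norm hu N) hk hN1 (by omega)
    have h := a_rem A (muk k) (nuk (cc u N) k N) m1 m2 (muk_one k)
      (nuk_one (cc u N) k N) g2 g1 (exact_one hk hN (cc_norm hu N)) θ R hθ hR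
    simp only [S_eq hu hN1 hk]
    rw [← h]
    -- the integral from 0 to 100 does not matter
    have key : ∃ K : ℝ, ∀ T : ℝ, 1 ≤ T →
        |(∫ t in (0 : ℝ)..T, ‖z t‖ ^ (2 * k)) - (muk k).real (Ioc 0 T)| ≤ K := by
      refine ⟨(∫ t in (0 : ℝ)..100, Zk k t) + (muk k).real (Ioc 0 100), fun T hT => ?_⟩
      have hnn : ∀ a b : ℝ, a ≤ b → 0 ≤ ∫ t in a..b, Zk k t := fun a b hab =>
        intervalIntegral.integral_nonneg hab (fun t _ => Zk_nonneg k t)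
      rcases le_or_gt 100 T with h100 | h100
      · rw [m6 T h100]
        have e1 : ∫ t in (0 : ℝ)..T, ‖z t‖ ^ (2 * k) =
            (∫ t in (0 : ℝ)..100, Zk k t) + ∫ t in (100 : ℝ)..T, Zk k t :=
          (intervalIntegral.integral_add_adjacent_intervals ((Zk_cont k).intervalIntegrable _ _)
            ((Zk_cont k).intervalIntegrable _ _)).symm
        rw [e1, add_sub_cancel_right, abs_of_nonneg (hnn 0 100 (by norm_num))]
        have := measureReal_nonneg (μ := muk k) (s := Ioc (0 : ℝ) 100)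
        linarith
      · have e1 : ∫ t in (0 : ℝ)..T, ‖z t‖ ^ (2 * k) ≤ ∫ t in (0 : ℝ)..100, Zk k t := by
          rw [← intervalIntegral.integral_add_adjacent_intervals (b := T)
            ((Zk_cont k).intervalIntegrable 0 T) ((Zk_cont k).intervalIntegrable T 100)]
          have := hnn T 100 h100.le
          have e3 : ∫ t in (0 : ℝ)..T, ‖z t‖ ^ (2 * k) = ∫ t in (0 : ℝ)..T, Zk k t := rfl
          linarith
        have e2 : (muk k).real (Ioc 0 T) ≤ (muk k).real (Ioc 0 100) := by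
          have hfin : muk k (Ioc (0 : ℝ) 100) ≠ ⊤ :=
            ((measure_mono (fun _ h => h.2 : Ioc (0 : ℝ) 100 ⊆ Iic 100)).trans_lt (m1 100)).ne
          exact measureReal_mono (Ioc_subset_Ioc_right h100.le) hfin
        have e3 := hnn 0 T (by linarith)
        have e3' : ∫ t in (0 : ℝ)..T, ‖z t‖ ^ (2 * k) = ∫ t in (0 : ℝ)..T, Zk k t := rfl
        have e4 := measureReal_nonneg (μ := muk k) (s := Ioc (0 : ℝ) T)
        rw [abs_le]
        constructor <;> linarith [hnn 0 100 (by norm_num)]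
    obtain ⟨K, hK⟩ := key
    have hK0 : 0 ≤ K := (abs_nonneg _).trans (hK 1 le_rfl)
    constructor
    · intro h1 ε hε
      obtain ⟨B, hB⟩ := h1 ε hε
      refine ⟨B + K, fun T hT => ?_⟩
      have h2 := hB T hT
      have h3 := hK T hT
      have h4 : 1 ≤ T ^ (θ + ε) := Real.one_le_rpow hT (by linarith)
      have h5 : |(muk k).real (Ioc 0 T) - R T| ≤
          |(∫ t in (0 : ℝ)..T, ‖z t‖ ^ (2 * k)) - R T| +
          |(∫ t in (0 : ℝ)..T, ‖z t‖ ^ (2 * k)) - (muk k).real (Ioc 0 T)| := by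
        rw [show (muk k).real (Ioc 0 T) - R T = ((∫ t in (0 : ℝ)..T, ‖z t‖ ^ (2 * k)) - R T) -
          ((∫ t in (0 : ℝ)..T, ‖z t‖ ^ (2 * k)) - (muk k).real (Ioc 0 T)) by ring]
        exact abs_sub _ _
      nlinarith
    · intro h1 ε hε
      obtain ⟨B, hB⟩ := h1 ε hε
      refine ⟨B + K, fun T hT => ?_⟩
      have h2 := hB T hT
      have h3 := hK T hT
      have h4 : 1 ≤ T ^ (θ + ε) := Real.one_le_rpow hT (by linarith)
      have h5 : |(∫ t in (0 : ℝ)..T, ‖z t‖ ^ (2 * k)) - R T| ≤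
          |(muk k).real (Ioc 0 T) - R T| +
          |(∫ t in (0 : ℝ)..T, ‖z t‖ ^ (2 * k)) - (muk k).real (Ioc 0 T)| := by
        rw [show (∫ t in (0 : ℝ)..T, ‖z t‖ ^ (2 * k)) - R T = ((muk k).real (Ioc 0 T) - R T) +
          ((∫ t in (0 : ℝ)..T, ‖z t‖ ^ (2 * k)) - (muk k).real (Ioc 0 T)) by ring]
        exact abs_add_le _ _
      nlinarith
  · rw [lam_eq]
    exact (a_line.1 t (by linarith)).2.1

end Pool.Agent.Results.MP_112ba8_nt.SamplingTheorem
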